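import Mathlib
import Pool.Agent.Y198.EX.Stm

set_option autoImplicit false

open Pool.Agent.H42R3.FS PowerSeries

namespace Pool.Agent.Y580.EX.G

theorem t : Pool.Agent.Y198.EX.stmG := by
  intro p _ D hpr
  obtain ⟨g, hg⟩ := hpr
  have hmem : ∀ f : RR D, f ∈ IsLocalRing.maximalIdeal (RR D) → ∃ a : RR D, a * g = f := by
    intro f hf
    have hf' : f ∈ Ideal.span {g} := by
      rw [hg] at hf
      exact hf
    exact Ideal.mem_span_singleton'.1 hf'
  have hg0 : coeff 0 (g : PowerSeries D.L) = 0 := by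
    rw [← mem_max_iff, hg]
    exact Submodule.mem_span_singleton_self g
  have hc1 : ∀ a : RR D, coeff 1 ((a * g : RR D) : PowerSeries D.L) =
      coeff 0 (a : PowerSeries D.L) * coeff 1 (g : PowerSeries D.L) := by
    intro a
    rw [Subring.coe_mul, coeff_mul, Finset.Nat.antidiagonal_succ]
    simp [hg0]
  obtain ⟨a, ha⟩ := hmem (xX : RR D) (by rw [mem_max_iff]; simp [xX])
  obtain ⟨b, hb⟩ := hmem (thX : RR D) (by rw [mem_max_iff]; simp [thX])
  have ea : coeff 0 (a : PowerSeries D.L) * coeff 1 (g : PowerSeries D.L) = 1 := by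
    rw [← hc1, ha]
    simp [xX]
  have eb : coeff 0 (b : PowerSeries D.L) * coeff 1 (g : PowerSeries D.L) = D.θ := by
    rw [← hc1, hb]
    simp [thX]
  have sa : D.σ (coeff 0 (a : PowerSeries D.L)) = coeff 0 (a : PowerSeries D.L) := a.2.2
  have sb : D.σ (coeff 0 (b : PowerSeries D.L)) = coeff 0 (b : PowerSeries D.L) := b.2.2
  apply D.hθ
  have ha0 : coeff 0 (a : PowerSeries D.L) ≠ 0 := by
    intro h
    rw [h, zero_mul] at ea
    exact zero_ne_one ea
  have hth : D.θ = coeff 0 (b : PowerSeries D.L) / coeff 0 (a : PowerSeries D.L) := by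
    rw [eq_div_iff ha0, ← eb]
    calc coeff 0 (b : PowerSeries D.L) * coeff 1 (g : PowerSeries D.L) *
          coeff 0 (a : PowerSeries D.L)
        = coeff 0 (b : PowerSeries D.L) * (coeff 0 (a : PowerSeries D.L) *
          coeff 1 (g : PowerSeries D.L)) := by ring
      _ = _ := by rw [ea, mul_one]
  rw [hth, map_div₀, sa, sb]

end Pool.Agent.Y580.EX.G
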